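import Pool.Agent.MP_a3b474_co.Defs
import Pool.Agent.MP_a3b474_co.Mg.Upper
import Pool.Agent.MP_a3b474_co.Lower

namespace Pool.Agent.Results.MP_a3b474_co.Exact

open Pool.Agent.MP_a3b474_co

/-- For `n ≥ 3`, `w n` is the least `k` with `3 ^ (2 n) (2 k + 1) < 3 ^ k`. -/
theorem result (n : ℕ) (hn : 3 ≤ n) :
    IsLeast {k : ℕ | 3 ^ (2 * n) * (2 * k + 1) < 3 ^ k} (w n) := by
  have hset : {k : ℕ | ∃ T : Strategy (3 ^ (2 * n)), T.Legal ∧ ∀ c b, T.Finds c b k}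
      = {k : ℕ | 3 ^ (2 * n) * (2 * k + 1) < 3 ^ k} := by
    ext k
    exact ⟨fun ⟨T, _, hT⟩ => lower_bound (by omega) T hT, fun h => upper_bound hn h⟩
  have hne : {k : ℕ | 3 ^ (2 * n) * (2 * k + 1) < 3 ^ k}.Nonempty := by
    refine ⟨2 * n + (2 * n + 2), ?_⟩
    have h1 := two_mul_add_one_le (2 * n)
    have h2 : 3 ^ (2 * n + 2) = 9 * 3 ^ (2 * n) := by ring
    change 3 ^ (2 * n) * (2 * (2 * n + (2 * n + 2)) + 1) < 3 ^ (2 * n + (2 * n + 2))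
    rw [pow_add 3 (2 * n) (2 * n + 2)]
    exact Nat.mul_lt_mul_of_pos_left (by omega) (by positivity)
  rw [w, hset]
  exact ⟨Nat.sInf_mem hne, fun k hk => Nat.sInf_le hk⟩

end Pool.Agent.Results.MP_a3b474_co.Exact
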